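import Pool.Agent.H74.RCM.Stmts

set_option autoImplicit false

namespace Pool.RCM

open scoped Classical
open Finset

/-- row GEN -/
theorem GEN (hP : PIHStmt) : GENStmt := by
  intro E _ g w P hg hw
  have key : ∀ ω : E → St, HasSum (fun n : E → ℕ × ℕ =>
      if P ω then ∏ e, (if cls (n e) = ω e then g e (n e) else 0) else 0)
      (if P ω then ∏ e, w e (ω e) else 0) := by
    intro ω
    by_cases h : P ω
    · simp only [h, if_true]
      refine hP E (ℕ × ℕ) (fun e x => if cls x = ω e then g e x else 0) (fun e => w e (ω e)) ?_ ?_
      · intro e x
        show 0 ≤ (if cls x = ω e then g e x else 0)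
        split_ifs
        · exact hg e x
        · exact le_rfl
      · intro e
        exact hw e (ω e)
    · simp only [h, if_false]
      exact hasSum_zero
  have hs := hasSum_sum (s := (Finset.univ : Finset (E → St))) (fun ω _ => key ω)
  have hfun : (fun n : E → ℕ × ℕ => if P (fun e => cls (n e)) then ∏ e, g e (n e) else 0) =
      fun n : E → ℕ × ℕ => ∑ ω : E → St,
        if P ω then ∏ e, (if cls (n e) = ω e then g e (n e) else 0) else 0 := by
    funext n
    rw [Finset.sum_eq_single (fun e => cls (n e))]
    · by_cases h : P (fun e => cls (n e))
      · rw [if_pos h, if_pos h]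
        exact Finset.prod_congr rfl (fun e _ => by rw [if_pos rfl])
      · rw [if_neg h, if_neg h]
    · intro ω _ hne
      have : ∃ e, cls (n e) ≠ ω e := by
        by_contra hcon
        push Not at hcon
        exact hne (funext fun e => (hcon e).symm)
      obtain ⟨e, he⟩ := this
      by_cases h : P ω
      · rw [if_pos h]
        exact Finset.prod_eq_zero (Finset.mem_univ e) (if_neg he)
      · rw [if_neg h]
    · intro h
      exact absurd (Finset.mem_univ _) h
  rw [hfun]
  exact hs

end Pool.RCM
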