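import Pool.Agent.H74.RCM.Stmts

set_option autoImplicit false

namespace Pool.RCM

open scoped Classical
open Finset

/-- row TWO -/
theorem TWO (hC : CLSStmt) (hG : GENStmt) (hPar : PARStmt) : TWOStmt := by
  intro V E _ _ a b J D hJ
  have h1 := hG E (fun e x => J e ^ x.1 / (x.1).factorial * (J e ^ x.2 / (x.2).factorial))
    (fun e s => wst (J e) s)
    (fun ω => IsSrc a b (par1 ω) ∅ ∧ IsSrc a b (par2 ω) ∅ ∧ D (supp ω))
    (fun e x => by
      have := hJ e
      positivity)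
    (fun e s => hC (J e) s (hJ e))
  have h2 : FS a b J ∅ ∅ D = ∑ ω : E → St,
      @ite ℝ (IsSrc a b (par1 ω) ∅ ∧ IsSrc a b (par2 ω) ∅ ∧ D (supp ω)) (Classical.propDecidable _)
        (∏ e, wst (J e) (ω e)) 0 := by
    unfold FS
    exact Finset.sum_congr rfl (fun ω _ => by congr)
  rw [h2]
  rw [← (Equiv.arrowProdEquivProdArrow E (fun _ => ℕ) (fun _ => ℕ)).hasSum_iff]
  have hfe : ∀ (F G : (E → ℕ × ℕ) → ℝ) (c : ℝ), (∀ n, F n = G n) → HasSum G c → HasSum F c := by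
    intro F G c hFG hG
    have : F = G := funext hFG
    rw [this]
    exact hG
  refine hfe _ _ _ ?_ h1
  intro n
  obtain ⟨p1, p2, p3⟩ := hPar V E a b n ∅
  show (if IsSrc a b (fun e => (n e).1) ∅ ∧ IsSrc a b (fun e => (n e).2) ∅ ∧
      D (tr (fun e => (n e).1) (fun e => (n e).2)) then
      wt J (fun e => (n e).1) * wt J (fun e => (n e).2) else 0) = _
  rw [p3]
  have hw : wt J (fun e => (n e).1) * wt J (fun e => (n e).2) =
      ∏ e, (J e ^ (n e).1 / ((n e).1).factorial * (J e ^ (n e).2 / ((n e).2).factorial)) := by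
    unfold wt
    rw [← Finset.prod_mul_distrib]
  rw [hw]
  by_cases h : IsSrc a b (par1 (fun e => cls (n e))) ∅ ∧
      IsSrc a b (par2 (fun e => cls (n e))) ∅ ∧ D (supp (fun e => cls (n e)))
  · rw [if_pos h, if_pos ⟨p1.mpr h.1, p2.mpr h.2.1, h.2.2⟩]
  · rw [if_neg h, if_neg]
    intro h'
    exact h ⟨p1.mp h'.1, p2.mp h'.2.1, h'.2.2⟩

end Pool.RCM
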